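import Pool.Agent.W14.US.Stm

/-!
# The conclusion (helper231)
-/

set_option autoImplicit false
open Complex MeasureTheory Set
open scoped ContDiff NNReal

namespace Pool.Agent.W231.US

open Pool.Agent.W14.US

theorem co_cont (b : Bool) : Continuous (co b) := by
  unfold co
  cases b <;> simp <;> fun_prop

theorem fin : S_F → S_MAIN := by
  rintro ⟨F, M, hM, hL, hS, hF0, hF2⟩
  set f : ℂ → ℂ := fun z => (2 * M : ℝ) * z + F z with hf
  set P : Set ℂ := {z | ¬ AnalyticAt ℂ F z} with hP
  have hFlip : LipschitzWith ⟨M, hM.le⟩ F := by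
    refine LipschitzWith.of_dist_le_mul ?_
    intro x y
    rw [dist_eq_norm, dist_eq_norm]
    exact hL x y
  have hFc : Continuous F := hFlip.continuous
  have hfc : Continuous f := by
    rw [hf]; fun_prop
  have hanti : AntilipschitzWith ⟨M⁻¹, (inv_pos.2 hM).le⟩ f := by
    refine AntilipschitzWith.of_le_mul_dist ?_
    intro x y
    rw [dist_eq_norm, dist_eq_norm]
    show ‖x - y‖ ≤ M⁻¹ * ‖f x - f y‖
    have h1 : ((2 * M : ℝ) : ℂ) * (x - y) = (f x - f y) - (F x - F y) := by
      rw [hf]; ring
    have h2 : ‖((2 * M : ℝ) : ℂ) * (x - y)‖ = 2 * M * ‖x - y‖ := by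
      rw [norm_mul, Complex.norm_real, Real.norm_of_nonneg (by positivity)]
    have h3 : 2 * M * ‖x - y‖ ≤ ‖f x - f y‖ + M * ‖x - y‖ := by
      rw [← h2, h1]
      exact (norm_sub_le _ _).trans (by gcongr; exact hL x y)
    have h4 : M * ‖x - y‖ ≤ ‖f x - f y‖ := by linarith
    calc ‖x - y‖ = M⁻¹ * (M * ‖x - y‖) := by field_simp
      _ ≤ _ := by gcongr
  have hflip : UniformContinuous f := by
    have h1 : LipschitzWith (⟨2 * M, by positivity⟩ + ⟨M, hM.le⟩) f := by
      refine LipschitzWith.add ?_ hFlip
      refine LipschitzWith.of_dist_le_mul ?_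
      intro x y
      rw [dist_eq_norm, dist_eq_norm, ← mul_sub, norm_mul, Complex.norm_real,
        Real.norm_of_nonneg (by positivity)]
      rfl
    exact h1.uniformContinuous
  have hemb : Topology.IsEmbedding f := (hanti.isUniformEmbedding hflip).isEmbedding
  -- analytic points near rational lines
  have hline : ∀ (b : Bool) (q : ℚ) (z : ℂ), co b z = q → AnalyticAt ℂ F z := by
    intro b q z hz
    obtain ⟨s, hs, hd⟩ := hS b q
    have ho : IsOpen {z : ℂ | |co b z - q| < s} := by
      have := co_cont b
      exact isOpen_lt (by fun_prop) continuous_const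
    exact hd.analyticAt (ho.mem_nhds (by show |co b z - q| < s; rw [hz]; simpa using hs))
  have hPc : IsClosed P := by
    have : P = {z | AnalyticAt ℂ F z}ᶜ := rfl
    rw [this]
    exact (isOpen_analyticAt ℂ F).isClosed_compl
  have hdisc : IsTotallyDisconnected P := by
    intro t ht hpre
    have key : ∀ b : Bool, ∀ z ∈ t, ∀ w ∈ t, ¬ co b z < co b w := by
      intro b z hz w hw hlt
      obtain ⟨q, hq1, hq2⟩ := exists_rat_btwn hlt
      have him : IsPreconnected (co b '' t) := hpre.image _ (co_cont b).continuousOn
      have hoc := him.ordConnected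
      have hmem := hoc.out (mem_image_of_mem _ hz) (mem_image_of_mem _ hw)
        (show (q : ℝ) ∈ Icc (co b z) (co b w) from ⟨hq1.le, hq2.le⟩)
      obtain ⟨v, hv, hv'⟩ := hmem
      exact ht hv (hline b q v hv')
    intro z hz w hw
    have hre : z.re = w.re := by
      have h1 := key false z hz w hw
      have h2 := key false w hw z hz
      simp only [co] at h1 h2
      simp at h1 h2
      exact le_antisymm h2 h1
    have him : z.im = w.im := by
      have h1 := key true z hz w hw
      have h2 := key true w hw z hz
      simp only [co] at h1 h2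
      simp at h1 h2
      exact le_antisymm h2 h1
    exact Complex.ext hre him
  have hne : P.Nonempty := by
    by_contra hemp
    rw [not_nonempty_iff_eq_empty] at hemp
    have hall : ∀ z, AnalyticAt ℂ F z := by
      intro z
      by_contra h
      have : z ∈ P := h
      rw [hemp] at this
      exact this
    have hdiff : Differentiable ℂ F := fun z => (hall z).differentiableAt
    have hb : Bornology.IsBounded (range F) := by
      rw [isBounded_iff_forall_norm_le]
      refine ⟨max (‖F 0‖ + M * 2) (1 / 4), ?_⟩
      rintro _ ⟨z, rfl⟩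
      rcases le_or_gt 2 ‖z‖ with h | h
      · exact (hF2 z h).trans (le_max_right _ _)
      · refine le_trans ?_ (le_max_left _ _)
        have h1 := hL z 0
        rw [sub_zero] at h1
        have h2 : ‖F z‖ ≤ ‖F 0‖ + ‖F z - F 0‖ := by
          have := norm_add_le (F 0) (F z - F 0)
          simpa using this
        have h3 : M * ‖z‖ ≤ M * 2 := by gcongr
        linarith
    have h2 := hdiff.apply_eq_apply_of_bounded hb 0 2
    have h3 := hF2 2 (by simp)
    rw [h2] at hF0
    linarith
  have hperf : Perfect P := by
    refine ⟨hPc, ?_⟩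
    intro z hz
    rw [accPt_iff_frequently_nhdsNE]
    intro hcon
    apply hz
    refine Complex.analyticAt_of_differentiable_on_punctured_nhds_of_continuousAt ?_ hFc.continuousAt
    filter_upwards [hcon] with w hw
    have : AnalyticAt ℂ F w := by
      by_contra h
      exact hw h
    exact this.differentiableAt
  have hlin : ∀ z, AnalyticAt ℂ (fun z : ℂ => ((2 * M : ℝ) : ℂ) * z) z := by
    intro z
    fun_prop
  refine ⟨univ, P, f, isOpen_univ, isConnected_univ, subset_univ _, hne, hperf, hdisc,
    hfc.continuousOn, ?_, ?_, ?_⟩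
  · intro z hz
    have h1 : AnalyticAt ℂ F z := by
      by_contra h
      exact hz.2 h
    exact ((hlin z).add h1).differentiableAt.differentiableWithinAt
  · intro p hp hcon
    apply hp
    have h1 : F = fun z => f z - ((2 * M : ℝ) : ℂ) * z := by
      funext z
      rw [hf]; ring
    rw [h1]
    exact hcon.sub (hlin p)
  · exact hemb.isTotallyDisconnected_image.2 hdisc

end Pool.Agent.W231.US
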